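import Mathlib
import Pool.Agent.H30.PosQ

namespace Pool.Agent.Results.MP_57f692_ag.FinGen

open Polynomial Pool.Agent.H30.PosQ

/-- `Σ`: finite sums `∑ a_j h_j²` with `a_j ∈ ℚ≥0`, `h_j ∈ ℚ[x]`. -/
noncomputable def Sig : AddSubmonoid ℚ[X] := AddSubmonoid.closure {f | ∃ (a : ℚ) (h : ℚ[X]), 0 ≤ a ∧ f = C a * h ^ 2}

/-- The preordering `T_S = {∑_e σ_e g^e}`, the sum running over all subsets `e` of `S`. -/
def T (S : Finset ℚ[X]) : Set ℚ[X] :=
  {f | ∃ σ : Finset ℚ[X] → ℚ[X], (∀ e, σ e ∈ Sig) ∧ f = ∑ e ∈ S.powerset, σ e * ∏ g ∈ e, g}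

/-- `Pos(K)`: rational polynomials nonnegative on `K`. -/
def Pos (K : Set ℝ) : Set ℚ[X] := {f | ∀ t ∈ K, 0 ≤ aeval t f}

theorem sig_mul {f g : ℚ[X]} (hf : f ∈ Sig) (hg : g ∈ Sig) : f * g ∈ Sig := by
  induction hf using AddSubmonoid.closure_induction with
  | zero => simp
  | add x y _ _ hx hy => rw [add_mul]; exact Sig.add_mem hx hy
  | mem x hx =>
    induction hg using AddSubmonoid.closure_induction with
    | zero => simp
    | add u v _ _ hu hv => rw [mul_add]; exact Sig.add_mem hu hv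
    | mem y hy =>
      obtain ⟨a, h, ha, rfl⟩ := hx
      obtain ⟨b, k, hb, rfl⟩ := hy
      exact AddSubmonoid.subset_closure ⟨a * b, h * k, mul_nonneg ha hb, by rw [C_mul]; ring⟩

theorem sig_sq (h : ℚ[X]) : h ^ 2 ∈ Sig := AddSubmonoid.subset_closure ⟨1, h, zero_le_one, by simp⟩

theorem sig_nonneg {f : ℚ[X]} (hf : f ∈ Sig) (t : ℝ) : 0 ≤ aeval t f := by
  induction hf using AddSubmonoid.closure_induction with
  | zero => simp
  | add x y _ _ hx hy => rw [map_add]; positivity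
  | mem x hx =>
    obtain ⟨a, h, ha, rfl⟩ := hx
    rw [map_mul, map_pow, aeval_C, eq_ratCast]; positivity

variable {S : Finset ℚ[X]}

theorem T_add {f g : ℚ[X]} (hf : f ∈ T S) (hg : g ∈ T S) : f + g ∈ T S := by
  obtain ⟨σ, hσ, rfl⟩ := hf
  obtain ⟨τ, hτ, rfl⟩ := hg
  exact ⟨fun e => σ e + τ e, fun e => Sig.add_mem (hσ e) (hτ e), by
    simp [add_mul, Finset.sum_add_distrib]⟩

open Classical in
theorem T_term {σ : ℚ[X]} (hσ : σ ∈ Sig) {e : Finset ℚ[X]} (he : e ⊆ S) : σ * ∏ g ∈ e, g ∈ T S :=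
  ⟨fun d => if d = e then σ else 0, fun d => by dsimp only; split_ifs <;> simp [hσ], by simp [he]⟩

theorem T_sig {σ : ℚ[X]} (hσ : σ ∈ Sig) : σ ∈ T S := by simpa using T_term hσ (Finset.empty_subset S)

theorem T_sum {ι : Type*} (s : Finset ι) (F : ι → ℚ[X]) (h : ∀ i ∈ s, F i ∈ T S) :
    ∑ i ∈ s, F i ∈ T S :=
  Finset.sum_induction F (· ∈ T S) (fun _ _ => T_add) (T_sig Sig.zero_mem) h

open Classical in
theorem T_gen {g f : ℚ[X]} (hg : g ∈ S) (hf : f ∈ T S) : g * f ∈ T S := by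
  obtain ⟨σ, hσ, rfl⟩ := hf
  rw [Finset.mul_sum]
  refine T_sum _ _ fun e he => ?_
  have he' := Finset.mem_powerset.1 he
  by_cases h : g ∈ e
  · convert T_term (sig_mul (hσ e) (sig_sq g)) ((Finset.erase_subset g e).trans he') using 1
    rw [← Finset.mul_prod_erase e _ h]; ring
  · convert T_term (hσ e) (Finset.insert_subset hg he') using 1
    rw [Finset.prod_insert h]; ring

open Classical in
theorem T_mul {f g : ℚ[X]} (hf : f ∈ T S) (hg : g ∈ T S) : f * g ∈ T S := by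
  obtain ⟨σ, hσ, rfl⟩ := hf
  rw [Finset.sum_mul]
  refine T_sum _ _ fun e he => ?_
  have he' := Finset.mem_powerset.1 he
  have h1 : σ e * g ∈ T S := by
    obtain ⟨τ, hτ, rfl⟩ := hg
    rw [Finset.mul_sum]
    exact T_sum _ _ fun d hd => by
      rw [← mul_assoc]; exact T_term (sig_mul (hσ e) (hτ d)) (Finset.mem_powerset.1 hd)
  rw [mul_right_comm, mul_comm]
  generalize σ e * g = w at h1
  clear he
  induction e using Finset.induction_on with
  | empty => simpa using h1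
  | insert a e ha ih =>
    rw [Finset.prod_insert ha, mul_assoc]
    exact T_gen (he' (Finset.mem_insert_self _ _)) (ih ((Finset.subset_insert _ _).trans he'))

theorem T_C {a : ℚ} (ha : 0 ≤ a) : C a ∈ T S :=
  T_sig (AddSubmonoid.subset_closure ⟨a, 1, ha, by simp⟩)

theorem T_sq (h : ℚ[X]) : h ^ 2 ∈ T S := T_sig (sig_sq h)

theorem T_mem {g : ℚ[X]} (hg : g ∈ S) : g ∈ T S := by simpa using T_gen hg (T_C zero_le_one)

theorem T_sub {K : Set ℝ} (h : ∀ g ∈ S, g ∈ Pos K) : T S ⊆ Pos K := by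
  rintro _ ⟨σ, hσ, rfl⟩ t ht
  rw [map_sum]
  refine Finset.sum_nonneg fun e he => ?_
  rw [map_mul, map_prod]
  exact mul_nonneg (sig_nonneg (hσ e) t)
    (Finset.prod_nonneg fun g hg => h g (Finset.mem_powerset.1 he hg) t ht)

/-- If `w • f ∈ T` with `w > 0` then `f ∈ T`. -/
theorem T_div {f g : ℚ[X]} (w : ℚ) (hw : 0 < w) (hg : g ∈ T S) (e : C w * f = g) : f ∈ T S := by
  convert T_mul (T_C (inv_nonneg.2 hw.le)) hg using 1
  rw [← e, ← mul_assoc, ← C_mul, inv_mul_cancel₀ hw.ne', C_1, one_mul]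

theorem root (n : ℕ) (hn : n ≠ 0) : ((2 : ℝ) ^ (1 / n : ℝ)) ^ n = 2 := by
  rw [one_div]; exact Real.rpow_inv_natCast_pow (by norm_num) hn

open Classical in
theorem K1 : Pos (Set.Icc 0 (2 ^ (1 / 3 : ℝ))) = T {X, 2 - X ^ 3} := by
  have hr := root 3 (by norm_num)
  have h0 : (0 : ℝ) < 2 ^ (1 / 3 : ℝ) := by positivity
  rw [show ((3 : ℕ) : ℝ) = 3 by norm_num] at hr
  set β : ℝ := 2 ^ (1 / 3 : ℝ)
  have g1 : X ∈ T {X, 2 - X ^ 3} := T_mem (by simp)
  have g2 : 2 - X ^ 3 ∈ T {X, 2 - X ^ 3} := T_mem (by simp)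
  have p1 : X ∈ Pos (Set.Icc 0 β) := fun t ht => by simpa using ht.1
  have p2 : 2 - X ^ 3 ∈ Pos (Set.Icc 0 β) := fun t ht => by
    have := pow_le_pow_left₀ ht.1 ht.2 3
    simp [map_ofNat]; linarith
  refine Set.Subset.antisymm (fun f hf => Good.nonneg (α := 0) (β := β) ⟨T_add, T_mul,
    fun _ => T_C, T_sq, fun a ha => ?_, fun b hb => ?_, by norm_num, h0, ?_, ?_⟩ f hf)
    (T_sub (by simp [p1, p2]))
  · rw [sub_eq_add_neg X, ← C_neg]
    exact T_add g1 (T_C (by have : a < 0 := by exact_mod_cast ha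
                            linarith))
  · have b0 : 0 < b := by exact_mod_cast h0.trans hb
    have b3 : 2 ≤ b ^ 3 := by
      have := pow_le_pow_left₀ h0.le hb.le 3
      rw [hr] at this; exact_mod_cast this
    refine T_div (3 * b ^ 2) (by positivity) (T_add (T_add g2 (T_C (sub_nonneg.2 b3)))
      (T_mul (T_sq (X - C b)) (T_add g1 (T_C (a := 2 * b) (by positivity))))) ?_
    simp only [C_mul, C_pow, C_sub, map_ofNat]; ring
  · exact lt_of_pow_lt_pow_left₀ 3 (by norm_num) (by rw [hr]; norm_num)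
  · rintro c (rfl | rfl)
    · exact ⟨X, g1, by simp, p1, fun f hf => X_dvd_iff.2 (by
        rw [← coeff_zero_eq_aeval_zero'] at hf; simpa using hf)⟩
    · refine ⟨_, g2, ?_, p2, fun f hf => ?_⟩
      · rw [show (2 : ℚ[X]) = C 2 from rfl, ← natDegree_neg, neg_sub, natDegree_X_pow_sub_C]; norm_num
      · rw [← neg_dvd, neg_sub]
        exact dvd_of 3 (by norm_num) 2 Nat.prime_two _ (by simpa using hr) f hf

open Classical in
theorem K3 : Pos (Set.Icc (-2 ^ (1 / 4 : ℝ)) (2 ^ (1 / 4 : ℝ))) = T {2 - X ^ 4} := by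
  have hr := root 4 (by norm_num)
  have h0 : (0 : ℝ) < 2 ^ (1 / 4 : ℝ) := by positivity
  rw [show ((4 : ℕ) : ℝ) = 4 by norm_num] at hr
  set β : ℝ := 2 ^ (1 / 4 : ℝ)
  have g2 : 2 - X ^ 4 ∈ T {2 - X ^ 4} := T_mem (by simp)
  have p2 : 2 - X ^ 4 ∈ Pos (Set.Icc (-β) β) := fun t ht => by
    have := pow_le_pow_left₀ (abs_nonneg t) (abs_le.2 ht) 4
    rw [pow_abs, hr] at this
    simp [map_ofNat]; linarith [le_abs_self (t ^ 4)]
  have hb2 : β < 2 := lt_of_pow_lt_pow_left₀ 4 (by norm_num) (by rw [hr]; norm_num)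
  have key : ∀ b : ℚ, β < b → C b - X ∈ T {2 - X ^ 4} ∧ C b + X ∈ T {2 - X ^ 4} := by
    intro b hb
    have b0 : 0 < b := by exact_mod_cast h0.trans hb
    have b3 : 2 ≤ b ^ 4 := by
      have := pow_le_pow_left₀ h0.le hb.le 4
      rw [hr] at this; exact_mod_cast this
    constructor
    · refine T_div (4 * b ^ 3) (by positivity) (T_add (T_add g2 (T_C (sub_nonneg.2 b3)))
        (T_mul (T_sq (X - C b)) (T_add (T_sq (X + C b)) (T_C (a := 2 * b ^ 2) (by positivity))))) ?_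
      simp only [C_mul, C_pow, C_sub, map_ofNat]; ring
    · refine T_div (4 * b ^ 3) (by positivity) (T_add (T_add g2 (T_C (sub_nonneg.2 b3)))
        (T_mul (T_sq (X + C b)) (T_add (T_sq (X - C b)) (T_C (a := 2 * b ^ 2) (by positivity))))) ?_
      simp only [C_mul, C_pow, C_sub, map_ofNat]; ring
  refine Set.Subset.antisymm (fun f hf => Good.nonneg (α := -β) (β := β) ⟨T_add, T_mul,
    fun _ => T_C, T_sq, fun a ha => ?_, fun b hb => (key b hb).1, by linarith, by linarith,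
    hb2, fun c hc => ⟨_, g2, ?_, p2, fun f hf => ?_⟩⟩ f hf) (T_sub (by simp [p2]))
  · convert (key (-a) (by push_cast; linarith)).2 using 1
    rw [C_neg]; ring
  · rw [show (2 : ℚ[X]) = C 2 from rfl, ← natDegree_neg, neg_sub, natDegree_X_pow_sub_C]; norm_num
  · rw [← neg_dvd, neg_sub]
    refine dvd_of 4 (by norm_num) 2 Nat.prime_two c ?_ f hf
    rcases hc with rfl | rfl
    · rw [Even.neg_pow (by decide)]; simpa using hr
    · simpa using hr

open Classical in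
theorem K2 : Pos (Set.Icc √2 √3) = T {X, X ^ 2 - 2, 3 - X ^ 2} := by
  have s2 : √2 ^ 2 = 2 := Real.sq_sqrt (by norm_num)
  have s3 : √3 ^ 2 = 3 := Real.sq_sqrt (by norm_num)
  have n2 : 0 < √2 := by positivity
  have n3 : 0 < √3 := by positivity
  have hb2 : √3 < 2 := by nlinarith
  have h23 : √2 < √3 := Real.sqrt_lt_sqrt (by norm_num) (by norm_num)
  set S : Finset ℚ[X] := {X, X ^ 2 - 2, 3 - X ^ 2} with hS
  have g1 : X ∈ T S := T_mem (by simp [hS])
  have g2 : X ^ 2 - 2 ∈ T S := T_mem (by simp [hS])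
  have g3 : 3 - X ^ 2 ∈ T S := T_mem (by simp [hS])
  have p1 : X ∈ Pos (Set.Icc √2 √3) := fun t ht => by simpa using n2.le.trans ht.1
  have p2 : X ^ 2 - 2 ∈ Pos (Set.Icc √2 √3) := fun t ht => by
    simp [map_ofNat]; nlinarith [ht.1]
  have p3 : 3 - X ^ 2 ∈ Pos (Set.Icc √2 √3) := fun t ht => by
    simp [map_ofNat]; nlinarith [ht.1, ht.2]
  have hi : ∀ b : ℚ, √3 < b → C b - X ∈ T S := by
    intro b hb
    have b0 : 0 < b := by exact_mod_cast n3.trans hb
    have b3 : 3 ≤ b ^ 2 := by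
      have := pow_le_pow_left₀ n3.le hb.le 2
      rw [s3] at this; exact_mod_cast this
    refine T_div (2 * b) (by positivity) (T_add (T_add g3 (T_C (sub_nonneg.2 b3)))
      (T_sq (X - C b))) ?_
    simp only [C_mul, C_pow, C_sub, map_ofNat]; ring
  have it : ∀ k : ℕ, ∃ a : ℚ, 0 ≤ a ∧ (a : ℝ) ≤ √2 ∧ √2 - a ≤ 2 * (1 / 2) ^ k ∧ X - C a ∈ T S := by
    intro k
    induction k with
    | zero => exact ⟨0, le_rfl, by simp, by simp, by simpa using g1⟩
    | succ k ih =>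
      obtain ⟨a, a0, a1, a2, a3⟩ := ih
      have a0' : (0 : ℝ) ≤ a := by exact_mod_cast a0
      have e : √2 - ((2 * a + 2) / (a + 2) : ℚ) = (2 - √2) / (a + 2) * (√2 - a) := by
        push_cast; field_simp; linear_combination s2
      have c1 : (2 - √2) / (a + 2) ≤ 1 / 2 := by
        rw [div_le_iff₀ (by positivity)]; nlinarith
      have c0 : 0 ≤ (2 - √2) / (a + 2) := div_nonneg (by linarith) (by positivity)
      refine ⟨(2 * a + 2) / (a + 2), by positivity, ?_, ?_, ?_⟩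
      · rw [← sub_nonneg, e]; exact mul_nonneg c0 (by linarith)
      · rw [e, pow_succ]; nlinarith
      · refine T_div (a + 2) (by positivity) (T_add (T_mul a3 (hi 2 (by simpa using hb2))) g2) ?_
        rw [mul_sub, ← C_mul, mul_div_cancel₀ _ (by positivity)]
        simp only [C_mul, C_add, map_ofNat]; ring
  refine Set.Subset.antisymm (fun f hf => Good.nonneg (α := √2) (β := √3) ⟨T_add, T_mul,
    fun _ => T_C, T_sq, fun a ha => ?_, hi, by linarith, h23, hb2, ?_⟩ f hf)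
    (T_sub (by simp [hS, p1, p2, p3]))
  · obtain ⟨k, hk⟩ := exists_pow_lt_of_lt_one (show 0 < (√2 - a) / 2 by linarith)
      (show (1 / 2 : ℝ) < 1 by norm_num)
    obtain ⟨c, -, -, c2, c3⟩ := it k
    have : a ≤ c := by exact_mod_cast (show (a : ℝ) ≤ c by linarith)
    convert T_add c3 (T_C (sub_nonneg.2 this)) using 1
    rw [C_sub]; ring
  · rintro c (rfl | rfl)
    · refine ⟨_, g2, ?_, p2, fun f hf => dvd_of 2 (by norm_num) 2 Nat.prime_two _ (by simp) f hf⟩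
      rw [show (2 : ℚ[X]) = C 2 from rfl, natDegree_X_pow_sub_C]; norm_num
    · refine ⟨_, g3, ?_, p3, fun f hf => ?_⟩
      · rw [show (3 : ℚ[X]) = C 3 from rfl, ← natDegree_neg, neg_sub, natDegree_X_pow_sub_C]; norm_num
      · rw [← neg_dvd, neg_sub]
        exact dvd_of 2 (by norm_num) 3 Nat.prime_three _ (by simp) f hf

open Classical in
theorem result : Pos (Set.Icc 0 (2 ^ (1 / 3 : ℝ))) = T {X, 2 - X ^ 3} ∧
    Pos (Set.Icc √2 √3) = T {X, X ^ 2 - 2, 3 - X ^ 2} ∧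
    Pos (Set.Icc (-2 ^ (1 / 4 : ℝ)) (2 ^ (1 / 4 : ℝ))) = T {2 - X ^ 4} ∧
    X - 1 ∈ T {X, X ^ 2 - 2, 3 - X ^ 2} := by
  refine ⟨K1, K2, K3, K2 ▸ fun t ht => ?_⟩
  have : (1 : ℝ) ≤ √2 := Real.one_le_sqrt.2 (by norm_num)
  simp; linarith [ht.1]

end Pool.Agent.Results.MP_57f692_ag.FinGen
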